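import Mathlib

/-!
# Quotients of `C`-closed groups are `C`-closed, for `C = T₁S, T₂S, T_zS`

If the quotient `X/c` of a group is a discrete non-closed subsemigroup of `Y'`, then the points of
its closure outside `X/c` form an ideal `I` of the closure, and `X ∪ I`, with a topology pulled
back from `Y'` in which the points of `X` are isolated, is a topological semigroup in which `X` is
discrete and not closed.
-/

namespace Pool.Agent.Results.MP_4caafd_al.GroupsT1T2Tz

open Topology Set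

universe u

/-! ### Definitions -/

/-- A class of topological semigroups: a predicate on topological spaces with a continuous
associative multiplication. -/
def TSClass : Type (u + 1) :=
  ∀ (Y : Type u) [Semigroup Y] [TopologicalSpace Y] [ContinuousMul Y], Prop

/-- The class of topological semigroups whose space is `T₁`. -/
def T1S : TSClass.{u} := fun Y _ _ _ => T1Space Y

/-- The class of topological semigroups whose space is Hausdorff. -/
def T2S : TSClass.{u} := fun Y _ _ _ => T2Space Y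

/-- The class of topological semigroups whose space is Hausdorff and zero-dimensional: the clopen
sets form a base. -/
def TzS : TSClass.{u} := fun Y _ _ _ =>
  T2Space Y ∧ TopologicalSpace.IsTopologicalBasis {s : Set Y | IsClopen s}

/-- The semigroup `X` is `C`-closed: for every topological semigroup `Y` in `C` and every
homomorphism `h : X → Y` which is a topological embedding of the discrete space `X`, the image of
`h` is closed in `Y`. -/
def CClosed (C : TSClass.{u}) (X : Type u) [Semigroup X] : Prop :=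
  ∀ (Y : Type u) [Semigroup Y] [TopologicalSpace Y] [ContinuousMul Y], C Y →
    ∀ h : X →ₙ* Y, @IsEmbedding X Y ⊥ _ h → IsClosed (range h)

/-- `X` is projectively `C`-closed: all quotients of `X` by congruences are `C`-closed. -/
def ProjectivelyClosed (C : TSClass.{u}) (X : Type u) [Semigroup X] : Prop :=
  ∀ c : Con X, CClosed C c.Quotient

/-! ### General facts -/

theorem mem_of_finite {X Y : Type u} [TopologicalSpace Y] [T1Space Y] {f : X → Y} {y : Y}
    {N : Set Y} (hN : N ∈ 𝓝 y) (hfin : (N ∩ range f).Finite) (hy : y ∈ closure (range f)) :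
    y ∈ range f := by
  have h1 : y ∈ closure (N ∩ range f) := by
    rw [mem_closure_iff_nhds] at hy ⊢
    intro t ht
    obtain ⟨z, hz1, hz2⟩ := hy _ (Filter.inter_mem ht hN)
    exact ⟨z, hz1.1, hz1.2, hz2⟩
  rw [hfin.isClosed.closure_eq] at h1
  exact h1.2

theorem exists_nhds {X Y : Type u} [TopologicalSpace Y] {f : X → Y}
    (hf : @IsEmbedding X Y ⊥ _ f) (x : X) : ∃ O ∈ 𝓝 (f x), ∀ z, f z ∈ O → z = x := by
  let t : TopologicalSpace X := ⊥
  have d : DiscreteTopology X := ⟨rfl⟩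
  have h1 : ({x} : Set X) ∈ 𝓝 x := by
    rw [nhds_discrete]
    exact Filter.mem_pure.2 rfl
  rw [hf.isInducing.nhds_eq_comap, Filter.mem_comap] at h1
  obtain ⟨O, hO, h2⟩ := h1
  exact ⟨O, hO, fun z hz => h2 hz⟩

/-- the complement of a discretely embedded cancellative semigroup in its closure is an ideal -/
theorem ideal_left {Q Y : Type u} [Semigroup Q] [Semigroup Y] [TopologicalSpace Y]
    [ContinuousMul Y] [T1Space Y] (h : Q →ₙ* Y) (hh : @IsEmbedding Q Y ⊥ _ h)
    (hcan : ∀ a b c : Q, a * b = a * c → b = c) {a y : Y} (ha : a ∈ closure (range h))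
    (hy : y ∈ closure (range h)) (hy' : y ∉ range h) : a * y ∉ range h := by
  rintro ⟨q, hq⟩
  obtain ⟨O, hO, hO'⟩ := exists_nhds hh q
  have hcont := (continuous_mul (M := Y)).tendsto (a, y)
  rw [hq] at hO
  have h1 := hcont hO
  rw [nhds_prod_eq, Filter.mem_map, Filter.mem_prod_iff] at h1
  obtain ⟨U, hU, V, hV, hUV⟩ := h1
  rw [mem_closure_iff_nhds] at ha
  obtain ⟨_, hu, ⟨u, rfl⟩⟩ := ha U hU
  refine hy' (mem_of_finite hV (Set.Subsingleton.finite ?_) hy)
  rintro _ ⟨hb, b, rfl⟩ _ ⟨hc, c, rfl⟩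
  have h2 : h (u * b) ∈ O := by rw [map_mul]; exact hUV (mk_mem_prod hu hb)
  have h3 : h (u * c) ∈ O := by rw [map_mul]; exact hUV (mk_mem_prod hu hc)
  rw [hcan u b c ((hO' _ h2).trans (hO' _ h3).symm)]

theorem ideal_right {Q Y : Type u} [Semigroup Q] [Semigroup Y] [TopologicalSpace Y]
    [ContinuousMul Y] [T1Space Y] (h : Q →ₙ* Y) (hh : @IsEmbedding Q Y ⊥ _ h)
    (hcan : ∀ a b c : Q, b * a = c * a → b = c) {a y : Y} (ha : a ∈ closure (range h))
    (hy : y ∈ closure (range h)) (hy' : y ∉ range h) : y * a ∉ range h := by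
  rintro ⟨q, hq⟩
  obtain ⟨O, hO, hO'⟩ := exists_nhds hh q
  have hcont := (continuous_mul (M := Y)).tendsto (y, a)
  rw [hq] at hO
  have h1 := hcont hO
  rw [nhds_prod_eq, Filter.mem_map, Filter.mem_prod_iff] at h1
  obtain ⟨V, hV, U, hU, hVU⟩ := h1
  rw [mem_closure_iff_nhds] at ha
  obtain ⟨_, hu, ⟨u, rfl⟩⟩ := ha U hU
  refine hy' (mem_of_finite hV (Set.Subsingleton.finite ?_) hy)
  rintro _ ⟨hb, b, rfl⟩ _ ⟨hc, c, rfl⟩
  have h2 : h (b * u) ∈ O := by rw [map_mul]; exact hVU (mk_mem_prod hb hu)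
  have h3 : h (c * u) ∈ O := by rw [map_mul]; exact hVU (mk_mem_prod hc hu)
  rw [hcan u b c ((hO' _ h2).trans (hO' _ h3).symm)]

/-! ### The semigroup `X` with a zero whose only neighbourhood is the whole space -/

/-- `X` with a zero adjoined -/
structure Xz (X : Type u) : Type u where
  val : Option X

namespace Xz

variable {X : Type u}

instance [Semigroup X] : Mul (Xz X) where
  mul a b := match a, b with
    | ⟨some x⟩, ⟨some y⟩ => ⟨some (x * y)⟩
    | _, _ => ⟨none⟩

theorem some_mul [Semigroup X] (x y : X) : (⟨some x⟩ : Xz X) * ⟨some y⟩ = ⟨some (x * y)⟩ := rfl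
theorem none_mul [Semigroup X] (a : Xz X) : ⟨none⟩ * a = ⟨none⟩ := rfl
theorem mul_none [Semigroup X] (a : Xz X) : a * ⟨none⟩ = ⟨none⟩ := by
  obtain ⟨_ | x⟩ := a <;> rfl

instance [Semigroup X] : Semigroup (Xz X) where
  mul_assoc a b c := by
    obtain ⟨_ | x⟩ := a <;> obtain ⟨_ | y⟩ := b <;> obtain ⟨_ | z⟩ := c <;>
      simp only [some_mul, none_mul, mul_none, mul_assoc]

instance : TopologicalSpace (Xz X) where
  IsOpen s := (⟨none⟩ : Xz X) ∈ s → s = univ
  isOpen_univ := fun _ => rfl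
  isOpen_inter s t hs ht := fun h => by rw [hs h.1, ht h.2, inter_univ]
  isOpen_sUnion S hS := by
    rintro ⟨s, hs, h⟩
    exact eq_univ_of_univ_subset ((hS s hs h) ▸ subset_sUnion_of_mem hs)

theorem isOpen_iff (s : Set (Xz X)) : IsOpen s ↔ ((⟨none⟩ : Xz X) ∈ s → s = univ) := Iff.rfl

theorem isOpen_single (x : X) : IsOpen ({⟨some x⟩} : Set (Xz X)) := by
  rw [isOpen_iff]
  intro h
  cases h

instance [Semigroup X] : ContinuousMul (Xz X) := ⟨by
  rw [continuous_def]
  intro s hs
  by_cases h : (⟨none⟩ : Xz X) ∈ s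
  · rw [hs h]
    exact isOpen_univ
  · rw [isOpen_iff_forall_mem_open]
    rintro ⟨a, b⟩ hab
    have hab' : a * b ∈ s := hab
    obtain ⟨_ | x⟩ := a
    · exact absurd hab' h
    · obtain ⟨_ | y⟩ := b
      · exact absurd hab' h
      · refine ⟨{⟨some x⟩} ×ˢ {⟨some y⟩}, ?_, (isOpen_single x).prod (isOpen_single y),
          ⟨rfl, rfl⟩⟩
        rintro ⟨a, b⟩ ⟨rfl, rfl⟩
        exact hab⟩

end Xz

/-! ### The pull-back -/

section pullback

theorem cancel_left {X : Type u} [Group X] {c : Con X} (a b d : c.Quotient) (hab : a * b = a * d) : b = d := by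
  obtain ⟨a, rfl⟩ := Quotient.exists_rep a
  obtain ⟨b, rfl⟩ := Quotient.exists_rep b
  obtain ⟨d, rfl⟩ := Quotient.exists_rep d
  have h1 : c (a * b) (a * d) := (Con.eq c).1 hab
  have h2 := c.mul (c.refl a⁻¹) h1
  rw [inv_mul_cancel_left, inv_mul_cancel_left] at h2
  exact (Con.eq c).2 h2

theorem cancel_right {X : Type u} [Group X] {c : Con X} (a b d : c.Quotient) (hab : b * a = d * a) : b = d := by
  obtain ⟨a, rfl⟩ := Quotient.exists_rep a
  obtain ⟨b, rfl⟩ := Quotient.exists_rep b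
  obtain ⟨d, rfl⟩ := Quotient.exists_rep d
  have h1 : c (b * a) (d * a) := (Con.eq c).1 hab
  have h2 := c.mul h1 (c.refl a⁻¹)
  rw [mul_inv_cancel_right, mul_inv_cancel_right] at h2
  exact (Con.eq c).2 h2

variable {X : Type u} [Group X] {c : Con X} {Y' : Type u} [Semigroup Y'] [TopologicalSpace Y']
  [ContinuousMul Y'] [T1Space Y'] (h : c.Quotient →ₙ* Y') (hh : @IsEmbedding _ Y' ⊥ _ h)

include hh

/-- the topological semigroup `X ∪ I`, where `I` is the set of points of the closure of the image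
of `h` which are not in the image -/
def Pb : Subsemigroup (Xz X × Y') where
  carrier := {p | (∃ x : X, p = (⟨some x⟩, h (x : c.Quotient))) ∨
    (p.1 = ⟨none⟩ ∧ p.2 ∈ closure (range h) ∧ p.2 ∉ range h)}
  mul_mem' := by
    have hcl : ∀ a b : Y', a ∈ closure (range h) → b ∈ closure (range h) →
        a * b ∈ closure (range h) := fun a b ha hb =>
      map_mem_closure₂ continuous_mul ha hb (by
        rintro _ ⟨x, rfl⟩ _ ⟨y, rfl⟩
        exact ⟨x * y, map_mul h x y⟩)
    rintro ⟨p1, p2⟩ ⟨q1, q2⟩ (⟨x, hx⟩ | ⟨hp1, hp2, hp3⟩) (⟨y, hy⟩ | ⟨hq1, hq2, hq3⟩)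
    · left
      cases hx
      cases hy
      refine ⟨x * y, ?_⟩
      rw [Prod.mk_mul_mk, Xz.some_mul, ← map_mul]
      rfl
    · right
      cases hx
      subst hq1
      refine ⟨Xz.mul_none _, hcl _ _ (subset_closure ⟨_, rfl⟩) hq2, ?_⟩
      exact ideal_left h hh cancel_left (subset_closure ⟨_, rfl⟩) hq2 hq3
    · right
      cases hy
      subst hp1
      refine ⟨Xz.none_mul _, hcl _ _ hp2 (subset_closure ⟨_, rfl⟩), ?_⟩
      exact ideal_right h hh cancel_right (subset_closure ⟨_, rfl⟩) hp2 hp3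
    · right
      subst hp1
      refine ⟨Xz.none_mul _, hcl _ _ hp2 hq2, ?_⟩
      exact ideal_left h hh cancel_left hp2 hq2 hq3

/-- the embedding of `X` -/
def emb : X →ₙ* Pb h hh where
  toFun x := ⟨(⟨some x⟩, h (x : c.Quotient)), Or.inl ⟨x, rfl⟩⟩
  map_mul' x y := by
    apply Subtype.ext
    show ((⟨some (x * y)⟩, h ((x * y : X) : c.Quotient)) : Xz X × Y') =
      (⟨some x⟩ * ⟨some y⟩, h (x : c.Quotient) * h (y : c.Quotient))
    rw [Xz.some_mul, ← map_mul]
    rfl

theorem isOpen_emb (s : Set X) : IsOpen (emb h hh '' s) := by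
  have h1 : emb h hh '' s = ⋃ x ∈ s, (fun p : Pb h hh => p.1.1) ⁻¹' {⟨some x⟩} := by
    ext ⟨⟨p1, p2⟩, hp⟩
    simp only [mem_iUnion, mem_preimage, mem_singleton_iff, mem_image, exists_prop]
    constructor
    · rintro ⟨x, hx, hx'⟩
      refine ⟨x, hx, ?_⟩
      have := congrArg (fun p : Pb h hh => p.1.1) hx'
      exact this.symm
    · rintro ⟨x, hx, hx'⟩
      refine ⟨x, hx, ?_⟩
      rcases hp with ⟨y, hy⟩ | ⟨hp1, -⟩
      · cases hy
        cases hx'
        rfl
      · rw [hx'] at hp1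
        cases hp1
  rw [h1]
  refine isOpen_biUnion fun x _ => ?_
  exact (Xz.isOpen_single x).preimage (continuous_fst.comp continuous_subtype_val)

theorem emb_injective : Function.Injective (emb h hh) := by
  intro x y hxy
  have := congrArg (fun p : Pb h hh => p.1.1) hxy
  cases this
  rfl

theorem emb_isEmbedding : @IsEmbedding X (Pb h hh) ⊥ _ (emb h hh) := by
  let t : TopologicalSpace X := ⊥
  have d : DiscreteTopology X := ⟨rfl⟩
  exact (IsOpenEmbedding.of_continuous_injective_isOpenMap continuous_of_discreteTopology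
    (emb_injective h hh) fun s _ => isOpen_emb h hh s).isEmbedding

/-- neighbourhoods of the points of `I` -/
theorem nhds_I (W : Set (Pb h hh)) (hW : IsOpen W) (p : Pb h hh) (hp : p ∈ W)
    (hp0 : p.1.1 = ⟨none⟩) :
    ∃ V : Set Y', IsOpen V ∧ p.1.2 ∈ V ∧ ∀ q : Pb h hh, q.1.2 ∈ V → q ∈ W := by
  obtain ⟨O, hO, rfl⟩ := isOpen_induced_iff.1 hW
  obtain ⟨U, V, hU, hV, hpU, hpV, hUV⟩ := isOpen_prod_iff.1 hO p.1.1 p.1.2 hp
  have hU' : U = univ := (Xz.isOpen_iff U).1 hU (hp0 ▸ hpU)
  refine ⟨V, hV, hpV, fun q hq => ?_⟩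
  refine hUV ⟨?_, hq⟩
  rw [hU']
  exact mem_univ _

/-- the points of `X` are isolated -/
theorem isOpen_point (p : Pb h hh) (hp0 : p.1.1 ≠ ⟨none⟩) : IsOpen ({p} : Set (Pb h hh)) := by
  rcases p.2 with ⟨x, hx⟩ | ⟨hp1, -⟩
  · have h1 := isOpen_emb h hh {x}
    rw [image_singleton] at h1
    have h2 : emb h hh x = p := Subtype.ext hx.symm
    rwa [h2] at h1
  · exact absurd hp1 hp0

/-- the points of `I` are determined by the second coordinate -/
theorem snd_ne (p q : Pb h hh) (hpq : p ≠ q) (hp0 : p.1.1 = ⟨none⟩) : p.1.2 ≠ q.1.2 := by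
  intro he
  apply hpq
  apply Subtype.ext
  refine Prod.ext ?_ he
  rw [hp0]
  rcases p.2 with ⟨x, hx⟩ | ⟨-, -, hp3⟩
  · rw [hx] at hp0
    cases hp0
  · rcases q.2 with ⟨y, hy⟩ | ⟨hq1, -⟩
    · rw [he, hy] at hp3
      exact absurd ⟨_, rfl⟩ hp3
    · exact hq1.symm

theorem continuous_snd' : Continuous fun p : Pb h hh => p.1.2 :=
  continuous_snd.comp continuous_subtype_val

theorem t1 : T1Space (Pb h hh) := by
  rw [t1Space_iff_exists_open]
  intro p q hpq
  by_cases hp0 : p.1.1 = ⟨none⟩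
  · have h1 := snd_ne h hh p q hpq hp0
    obtain ⟨U, hU, hpU, hqU⟩ := t1Space_iff_exists_open.1 ‹T1Space Y'› h1
    exact ⟨_, hU.preimage (continuous_snd' h hh), hpU, hqU⟩
  · exact ⟨{p}, isOpen_point h hh p hp0, rfl, fun h => hpq h.symm⟩

theorem t2 (hT : T2Space Y') : T2Space (Pb h hh) := by
  constructor
  intro p q hpq
  by_cases he : p.1.2 = q.1.2
  · have hp0 : p.1.1 ≠ ⟨none⟩ := fun hp0 => snd_ne h hh p q hpq hp0 he
    have hq0 : q.1.1 ≠ ⟨none⟩ := fun hq0 => snd_ne h hh q p hpq.symm hq0 he.symm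
    exact ⟨{p}, {q}, isOpen_point h hh p hp0, isOpen_point h hh q hq0, rfl, rfl,
      disjoint_singleton.2 hpq⟩
  · obtain ⟨U, V, hU, hV, hpU, hqV, hUV⟩ := t2_separation he
    exact ⟨_, _, hU.preimage (continuous_snd' h hh), hV.preimage (continuous_snd' h hh), hpU, hqV,
      hUV.preimage _⟩

theorem tz (hT : TopologicalSpace.IsTopologicalBasis {s : Set Y' | IsClopen s}) :
    TopologicalSpace.IsTopologicalBasis {s : Set (Pb h hh) | IsClopen s} := by
  have := t1 h hh
  refine TopologicalSpace.isTopologicalBasis_of_isOpen_of_nhds (fun u hu => hu.isOpen) ?_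
  intro p W hp hW
  by_cases hp0 : p.1.1 = ⟨none⟩
  · obtain ⟨V, hV, hpV, hVW⟩ := nhds_I h hh W hW p hp hp0
    obtain ⟨B, hB, hpB, hBV⟩ := hT.exists_subset_of_mem_open hpV hV
    exact ⟨_, IsClopen.preimage hB (continuous_snd' h hh), hpB, fun q hq => hVW q (hBV hq)⟩
  · refine ⟨{p}, ⟨isClosed_singleton, isOpen_point h hh p hp0⟩, rfl, ?_⟩
    rintro _ rfl
    exact hp

/-- if the image of `X` is closed in `Pb` then the image of `h` is closed -/
theorem closed_of (hcl : IsClosed (range (emb h hh))) : IsClosed (range h) := by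
  refine isClosed_of_closure_subset fun y hy => ?_
  by_contra hy'
  let p : Pb h hh := ⟨(⟨none⟩, y), Or.inr ⟨rfl, hy, hy'⟩⟩
  have hp : p ∈ (range (emb h hh))ᶜ := by
    rintro ⟨x, hx⟩
    have := congrArg (fun p : Pb h hh => p.1.1) hx
    cases this
  obtain ⟨V, hV, hyV, hVW⟩ := nhds_I h hh _ hcl.isOpen_compl p hp rfl
  obtain ⟨_, hzV, ⟨z, rfl⟩⟩ := mem_closure_iff.1 hy V hV hyV
  obtain ⟨x, rfl⟩ := Quotient.exists_rep z
  exact hVW (emb h hh x) hzV ⟨x, rfl⟩

end pullback

/-- **The question for groups, for the classes `T₁S`, `T₂S`, `T_zS`.**  If `C` is one of these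
classes then every `C`-closed group is projectively `C`-closed. -/
theorem result (C : TSClass.{u}) (hC : C = T1S ∨ C = T2S ∨ C = TzS) (X : Type u) [Group X]
    (hX : CClosed C X) : ProjectivelyClosed C X := by
  intro c Y' _ _ _ hY' h hh
  rcases hC with rfl | rfl | rfl
  · have h1 : T1Space Y' := hY'
    exact closed_of h hh (hX (Pb h hh) (t1 h hh) (emb h hh) (emb_isEmbedding h hh))
  · have h2 : T2Space Y' := hY'
    exact closed_of h hh (hX (Pb h hh) (t2 h hh h2) (emb h hh) (emb_isEmbedding h hh))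
  · have h2 : T2Space Y' := hY'.1
    exact closed_of h hh
      (hX (Pb h hh) ⟨t2 h hh h2, tz h hh hY'.2⟩ (emb h hh) (emb_isEmbedding h hh))

end Pool.Agent.Results.MP_4caafd_al.GroupsT1T2Tz
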