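import Mathlib

/-!
# Ideally `C`-closed semigroups need not be projectively `C`-closed

For an infinite Boolean group `G` (written additively) let `X = Xs G` be the Rees matrix semigroup
over `G` with index sets `G` and `{false, true}` and sandwich matrix `p false i = 0`,
`p true i = i`.  The semigroup `X` has no ideals besides `∅` and `X`, and is `T₁S`-closed, but its
quotient by the congruence `(i, g, l) ~ (i, g', l')` is an infinite left zero semigroup, which is
not `T_zS`-closed.
-/

namespace Pool.Agent.Results.MP_4caafd_al.IdeallyNotProjectively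

open Topology Set

universe u

/-! ### Definitions -/

/-- A class of topological semigroups: a predicate on topological spaces with a continuous
associative multiplication. -/
def TSClass : Type (u + 1) :=
  ∀ (Y : Type u) [Semigroup Y] [TopologicalSpace Y] [ContinuousMul Y], Prop

/-- The class of topological semigroups whose space is `T₁`. -/
def T1S : TSClass.{u} := fun Y _ _ _ => T1Space Y

/-- The class of topological semigroups whose space is Hausdorff and zero-dimensional: the clopen
sets form a base. -/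
def TzS : TSClass.{u} := fun Y _ _ _ =>
  T2Space Y ∧ TopologicalSpace.IsTopologicalBasis {s : Set Y | IsClopen s}

/-- `C ≤ D`: every topological semigroup in the class `C` is in the class `D`. -/
def Sub (C D : TSClass.{u}) : Prop :=
  ∀ (Y : Type u) [Semigroup Y] [TopologicalSpace Y] [ContinuousMul Y], C Y → D Y

/-- The semigroup `X` is `C`-closed: for every topological semigroup `Y` in `C` and every
homomorphism `h : X → Y` which is a topological embedding of the discrete space `X`, the image of
`h` is closed in `Y`. -/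
def CClosed (C : TSClass.{u}) (X : Type u) [Semigroup X] : Prop :=
  ∀ (Y : Type u) [Semigroup Y] [TopologicalSpace Y] [ContinuousMul Y], C Y →
    ∀ h : X →ₙ* Y, @IsEmbedding X Y ⊥ _ h → IsClosed (range h)

/-- `X` is projectively `C`-closed: all quotients of `X` by congruences are `C`-closed. -/
def ProjectivelyClosed (C : TSClass.{u}) (X : Type u) [Semigroup X] : Prop :=
  ∀ c : Con X, CClosed C c.Quotient

/-- `I` is an ideal of `X` (possibly empty). -/
def IsIdeal {X : Type u} [Semigroup X] (I : Set X) : Prop :=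
  ∀ a ∈ I, ∀ x : X, a * x ∈ I ∧ x * a ∈ I

/-- The congruence `(I × I) ∪ {(x, x)}` of an ideal `I`. -/
def idealCon {X : Type u} [Semigroup X] (I : Set X) (hI : IsIdeal I) : Con X where
  r x y := x = y ∨ (x ∈ I ∧ y ∈ I)
  iseqv := by
    refine ⟨fun x => Or.inl rfl, ?_, ?_⟩
    · rintro x y (h | ⟨h1, h2⟩)
      · exact Or.inl h.symm
      · exact Or.inr ⟨h2, h1⟩
    · rintro x y z (rfl | ⟨h1, h2⟩) (rfl | ⟨h3, h4⟩)
      · exact Or.inl rfl
      · exact Or.inr ⟨h3, h4⟩
      · exact Or.inr ⟨h1, h2⟩
      · exact Or.inr ⟨h1, h4⟩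
  mul' := by
    rintro w x y z (rfl | ⟨h1, h2⟩) (rfl | ⟨h3, h4⟩)
    · exact Or.inl rfl
    · exact Or.inr ⟨(hI _ h3 _).2, (hI _ h4 _).2⟩
    · exact Or.inr ⟨(hI _ h1 _).1, (hI _ h2 _).1⟩
    · exact Or.inr ⟨(hI _ h1 _).1, (hI _ h2 _).1⟩

/-- `X` is ideally `C`-closed: all quotients of `X` by ideals are `C`-closed. -/
def IdeallyClosed (C : TSClass.{u}) (X : Type u) [Semigroup X] : Prop :=
  ∀ (I : Set X) (hI : IsIdeal I), CClosed C (idealCon I hI).Quotient

/-! ### The Rees matrix semigroup -/

/-- The Rees matrix semigroup `M[G; G, {false, true}; p]` with `p false i = 0`, `p true i = i`. -/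
@[ext] structure Xs (G : Type u) : Type u where
  i : G
  g : G
  l : Bool

namespace Xs

variable {G : Type u} [AddCommGroup G]

/-- the sandwich matrix -/
def p (l : Bool) (i : G) : G := if l then i else 0

theorem p_false (i : G) : p false i = 0 := rfl
theorem p_true (i : G) : p true i = i := rfl
theorem p_zero (l : Bool) : p l (0 : G) = 0 := by cases l <;> rfl

instance : Mul (Xs G) where
  mul x y := ⟨x.i, x.g + p x.l y.i + y.g, y.l⟩

theorem mul_def (x y : Xs G) : x * y = ⟨x.i, x.g + p x.l y.i + y.g, y.l⟩ := rfl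

instance : Semigroup (Xs G) where
  mul_assoc x y z := by
    simp only [mul_def, add_assoc]

/-- a nonempty ideal contains everything -/
theorem ideal_eq (I : Set (Xs G)) (hI : IsIdeal I) : I = ∅ ∨ I = univ := by
  rcases I.eq_empty_or_nonempty with h | ⟨x, hx⟩
  · exact Or.inl h
  · refine Or.inr (eq_univ_of_forall fun y => ?_)
    have h1 := (hI _ (hI _ hx ⟨y.i, 0, false⟩).2 ⟨0, - x.g + y.g, y.l⟩).1
    have h2 : (⟨y.i, 0, false⟩ * x) * ⟨0, - x.g + y.g, y.l⟩ = y := by
      simp only [mul_def, p_false, p_zero]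
      ext
      · rfl
      · show 0 + 0 + x.g + 0 + (-x.g + y.g) = y.g
        abel
      · rfl
    rwa [h2] at h1

/-- If an open set meets the image of a discretely embedded `X` in finitely many points, and `y`
is in this open set and in the closure of the image, then `y` is in the image. -/
theorem mem_of_finite {X Y : Type u} [TopologicalSpace Y] [T1Space Y] {f : X → Y} {y : Y}
    {N : Set Y} (hN : N ∈ 𝓝 y) (hfin : (N ∩ range f).Finite) (hy : y ∈ closure (range f)) :
    y ∈ range f := by
  have h1 : y ∈ closure (N ∩ range f) := by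
    rw [mem_closure_iff_nhds] at hy ⊢
    intro t ht
    obtain ⟨z, hz1, hz2⟩ := hy _ (Filter.inter_mem ht hN)
    exact ⟨z, hz1.1, hz1.2, hz2⟩
  rw [hfin.isClosed.closure_eq] at h1
  exact h1.2

/-- the points of a discretely embedded `X` are isolated in the image -/
theorem exists_nhds {X Y : Type u} [TopologicalSpace Y] {f : X → Y}
    (hf : @IsEmbedding X Y ⊥ _ f) (x : X) : ∃ O ∈ 𝓝 (f x), ∀ z, f z ∈ O → z = x := by
  let t : TopologicalSpace X := ⊥
  have d : DiscreteTopology X := ⟨rfl⟩
  have h1 : ({x} : Set X) ∈ 𝓝 x := by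
    rw [nhds_discrete]
    exact Filter.mem_pure.2 rfl
  rw [hf.isInducing.nhds_eq_comap, Filter.mem_comap] at h1
  obtain ⟨O, hO, h2⟩ := h1
  exact ⟨O, hO, fun z hz => h2 hz⟩

theorem closed_T1 (h2 : ∀ x : G, x + x = 0) : CClosed T1S (Xs G) := by
  intro Y _ _ _ hT h hh
  have : T1Space Y := hT
  refine isClosed_of_closure_subset fun y hy => ?_
  -- the subgroup
  let e : G → Xs G := fun g => ⟨0, g, false⟩
  have e_mul : ∀ a b, e a * e b = e (a + b) := by
    intro a b
    show (⟨0, a + p false 0 + b, false⟩ : Xs G) = ⟨0, a + b, false⟩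
    rw [p_false, add_zero]
  have key : ∀ w ∈ closure (range fun g => h (e g)), ∃ c : G, w = h (e c) := by
    intro w hw
    have hsq : w * w = h (e 0) := by
      have h1 : Continuous fun z : Y => z * z := continuous_id.mul continuous_id
      have h2' : w * w ∈ closure ((fun z : Y => z * z) '' range fun g => h (e g)) :=
        image_closure_subset_closure_image h1 ⟨w, hw, rfl⟩
      have h3 : ((fun z : Y => z * z) '' range fun g => h (e g)) ⊆ {h (e 0)} := by
        rintro _ ⟨_, ⟨g, rfl⟩, rfl⟩
        show h (e g) * h (e g) = h (e 0)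
        rw [← map_mul, e_mul, h2]
      have h4 := closure_mono h3 h2'
      rw [closure_singleton] at h4
      exact h4
    obtain ⟨O, hO, hO'⟩ := exists_nhds hh (e 0)
    have hcont : Filter.Tendsto (fun q : Y × Y => q.1 * q.2) (𝓝 (w, w)) (𝓝 (h (e 0))) := by
      have := (continuous_mul (M := Y)).tendsto (w, w)
      simpa only [hsq] using this
    have h5 := hcont hO
    rw [nhds_prod_eq, Filter.mem_map, Filter.mem_prod_self_iff] at h5
    obtain ⟨V, hV, hVV⟩ := h5
    have hone : ∀ a b, h (e a) ∈ V → h (e b) ∈ V → a = b := by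
      intro a b ha hb
      have h6 : h (e a) * h (e b) ∈ O := hVV (mk_mem_prod ha hb)
      rw [← map_mul] at h6
      have h7 := hO' _ h6
      rw [e_mul] at h7
      have h8 : a + b = 0 := congrArg Xs.g h7
      have h9 := h2 b
      exact add_right_cancel (h8.trans h9.symm)
    have hfin : (V ∩ range fun g => h (e g)).Finite := by
      refine Set.Subsingleton.finite ?_
      rintro _ ⟨ha, a, rfl⟩ _ ⟨hb, b, rfl⟩
      show h (e a) = h (e b)
      rw [hone a b ha hb]
    obtain ⟨c, hc⟩ := mem_of_finite hV hfin hw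
    exact ⟨c, hc.symm⟩
  -- the maps `T m`
  let T : Bool → Y → Y := fun m z => h ⟨0, 0, m⟩ * z * h (e 0)
  have T_cont : ∀ m, Continuous (T m) := fun m =>
    (continuous_const.mul continuous_id).mul continuous_const
  have T_h : ∀ m x, T m (h x) = h (e (p m x.i + x.g)) := by
    intro m x
    show h ⟨0, 0, m⟩ * h x * h (e 0) = _
    rw [← map_mul, ← map_mul]
    congr 1
    show (⟨0, 0 + p m x.i + x.g + p x.l 0 + 0, false⟩ : Xs G) = ⟨0, p m x.i + x.g, false⟩
    rw [p_zero]
    simp only [add_zero, zero_add]
  have hT : ∀ m, ∃ c : G, ∃ N ∈ 𝓝 y, ∀ x, h x ∈ N → p m x.i + x.g = c := by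
    intro m
    have h1 : T m y ∈ closure (range fun g => h (e g)) := by
      have h2' : T m y ∈ closure (T m '' range h) :=
        image_closure_subset_closure_image (T_cont m) ⟨y, hy, rfl⟩
      refine closure_mono ?_ h2'
      rintro _ ⟨_, ⟨x, rfl⟩, rfl⟩
      exact ⟨_, (T_h m x).symm⟩
    obtain ⟨c, hc⟩ := key _ h1
    obtain ⟨O, hO, hO'⟩ := exists_nhds hh (e c)
    rw [← hc] at hO
    refine ⟨c, T m ⁻¹' O, (T_cont m).continuousAt hO, fun x hx => ?_⟩
    have h3 : T m (h x) ∈ O := hx
    rw [T_h] at h3
    exact congrArg Xs.g (hO' _ h3)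
  obtain ⟨c0, N0, hN0, h0⟩ := hT false
  obtain ⟨c1, N1, hN1, h1⟩ := hT true
  refine mem_of_finite (Filter.inter_mem hN0 hN1) ?_ hy
  refine Set.Finite.subset (Set.toFinite {h ⟨c1 - c0, c0, false⟩, h ⟨c1 - c0, c0, true⟩}) ?_
  rintro _ ⟨⟨hx0, hx1⟩, x, rfl⟩
  have h3 := h0 x hx0
  have h4 := h1 x hx1
  rw [p_false, zero_add] at h3
  rw [p_true] at h4
  have h5 : x.i = c1 - c0 := by rw [← h3, ← h4, add_sub_cancel_right]
  have hx : x = ⟨c1 - c0, c0, x.l⟩ := by
    ext
    · exact h5
    · exact h3
    · rfl
  rw [hx]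
  cases x.l
  · exact Or.inl rfl
  · exact Or.inr rfl

/-- `X` is ideally `C`-closed for all classes `C` of `T₁` topological semigroups. -/
theorem ideallyClosed (h2 : ∀ x : G, x + x = 0) (C : TSClass.{u}) (hC : Sub C T1S) :
    IdeallyClosed C (Xs G) := by
  intro I hI Y _ _ _ hY h hh
  have : T1Space Y := hC Y hY
  rcases ideal_eq I hI with hI0 | hI1
  · -- the quotient by the empty ideal
    let q : Xs G →ₙ* (idealCon I hI).Quotient :=
      ⟨fun x => (x : (idealCon I hI).Quotient), fun x y => rfl⟩
    have hq : Function.Injective q := by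
      intro x y hxy
      rcases (Con.eq _).1 hxy with h | ⟨h1, -⟩
      · exact h
      · rw [hI0] at h1
        exact absurd h1 (notMem_empty _)
    have hsurj : Function.Surjective q := fun z => by
      obtain ⟨x, rfl⟩ := Quotient.exists_rep z
      exact ⟨x, rfl⟩
    have h1 : range h = range (h.comp q) := by
      rw [MulHom.coe_comp, hsurj.range_comp]
    rw [h1]
    refine closed_T1 h2 Y (hC Y hY) (h.comp q) ?_
    let t1 : TopologicalSpace (Xs G) := ⊥
    let t2 : TopologicalSpace (idealCon I hI).Quotient := ⊥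
    have d1 : DiscreteTopology (Xs G) := ⟨rfl⟩
    have d2 : DiscreteTopology (idealCon I hI).Quotient := ⟨rfl⟩
    have h3 : IsEmbedding q :=
      (IsOpenEmbedding.of_continuous_injective_isOpenMap continuous_of_discreteTopology hq
        fun s _ => isOpen_discrete _).isEmbedding
    rw [MulHom.coe_comp]
    exact IsEmbedding.comp hh h3
  · -- the quotient by the whole semigroup
    have h1 : (range h).Subsingleton := by
      rintro _ ⟨x, rfl⟩ _ ⟨y, rfl⟩
      obtain ⟨x, rfl⟩ := Quotient.exists_rep x
      obtain ⟨y, rfl⟩ := Quotient.exists_rep y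
      congr 1
      refine Quotient.sound ?_
      exact Or.inr ⟨hI1 ▸ mem_univ _, hI1 ▸ mem_univ _⟩
    exact h1.finite.isClosed

/-- the congruence `(i, g, l) ~ (i, g', l')` -/
def con : Con (Xs G) where
  r x y := x.i = y.i
  iseqv := ⟨fun _ => rfl, fun h => h.symm, fun h h' => h.trans h'⟩
  mul' := by
    intro w x y z h _
    exact h

/-- the left zero semigroup on the one-point compactification of the discrete space `X` -/
structure LZ (Q : Type u) : Type u where
  val : OnePoint Q

instance (Q : Type u) : Semigroup (LZ Q) where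
  mul x _ := x
  mul_assoc _ _ _ := rfl

theorem LZ.mul_def {Q : Type u} (x y : LZ Q) : x * y = x := rfl

theorem not_projectivelyClosed [Infinite G] (C : TSClass.{u}) (hC : Sub TzS C) :
    ¬ ProjectivelyClosed C (Xs G) := by
  intro hP
  let Q : Type u := (con (G := G)).Quotient
  have hQmul : ∀ x y : Q, x * y = x := by
    intro x y
    obtain ⟨x, rfl⟩ := Quotient.exists_rep x
    obtain ⟨y, rfl⟩ := Quotient.exists_rep y
    exact Quotient.sound rfl
  have : Infinite Q := by
    let f : G → Q := fun g => ((⟨g, 0, false⟩ : Xs G) : (con (G := G)).Quotient)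
    refine Infinite.of_injective f ?_
    intro a b hab
    exact (Con.eq _).1 hab
  let t1 : TopologicalSpace Q := ⊥
  have : DiscreteTopology Q := ⟨rfl⟩
  let t2 : TopologicalSpace (LZ Q) := TopologicalSpace.induced LZ.val inferInstance
  let E : LZ Q ≃ₜ OnePoint Q :=
    { toFun := LZ.val
      invFun := LZ.mk
      left_inv := fun _ => rfl
      right_inv := fun _ => rfl
      continuous_toFun := continuous_induced_dom
      continuous_invFun := continuous_induced_rng.2 continuous_id }
  have : ContinuousMul (LZ Q) := ⟨by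
    have : (fun p : LZ Q × LZ Q => p.1 * p.2) = fun p => p.1 := rfl
    rw [this]
    exact continuous_fst⟩
  have : T2Space (LZ Q) := E.symm.t2Space
  have : CompactSpace (LZ Q) := E.symm.compactSpace
  have : TotallyDisconnectedSpace (LZ Q) := E.symm.totallyDisconnectedSpace
  have hz : TzS (LZ Q) := ⟨inferInstance, isTopologicalBasis_isClopen⟩
  let h : Q →ₙ* LZ Q := ⟨fun x => ⟨(x : OnePoint Q)⟩, fun x y => by
    rw [hQmul, LZ.mul_def]⟩
  have hemb : @IsEmbedding Q (LZ Q) ⊥ _ h := by
    have h1 : IsEmbedding ((↑) : Q → OnePoint Q) := OnePoint.isOpenEmbedding_coe.isEmbedding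
    have h2 : IsEmbedding (E.symm ∘ ((↑) : Q → OnePoint Q)) := E.symm.isEmbedding.comp h1
    exact h2
  have hcl := hP con (LZ Q) (hC _ hz) h hemb
  -- the range is dense, but misses the point at infinity
  have : NoncompactSpace Q := not_compactSpace_iff.1 fun _ =>
    not_finite_iff_infinite.2 ‹Infinite Q› finite_of_compact_of_discrete
  have hd : DenseRange ((↑) : Q → OnePoint Q) := OnePoint.denseRange_coe
  have h1 : IsClosed (E '' range h) := E.isClosedMap _ hcl
  have h3 : E '' range h = range ((↑) : Q → OnePoint Q) := by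
    rw [← range_comp]
    rfl
  rw [h3] at h1
  have h4 : OnePoint.infty ∈ range ((↑) : Q → OnePoint Q) := by
    have h5 := hd OnePoint.infty
    rwa [h1.closure_eq] at h5
  obtain ⟨x, hx⟩ := h4
  exact OnePoint.coe_ne_infty x hx

end Xs

/-- **Answer to Q1 (no, for every class).**  There is a semigroup `X` which is ideally `C`-closed
but not projectively `C`-closed, for all classes `C` with `T_zS ⊆ C ⊆ T₁S`. -/
theorem result : ∃ (X : Type u) (_ : Semigroup X), ∀ C : TSClass.{u}, Sub TzS C → Sub C T1S →
    IdeallyClosed C X ∧ ¬ ProjectivelyClosed C X := by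
  have h2 : ∀ x : ULift.{u} (ℕ → ZMod 2), x + x = 0 := by
    intro x
    ext n
    exact CharTwo.add_self_eq_zero (x.down n)
  exact ⟨Xs (ULift.{u} (ℕ → ZMod 2)), inferInstance, fun C hC1 hC2 =>
    ⟨Xs.ideallyClosed h2 C hC2, Xs.not_projectivelyClosed C hC1⟩⟩

end Pool.Agent.Results.MP_4caafd_al.IdeallyNotProjectively
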